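import Pool.Agent.Q108.BDim

set_option autoImplicit false

/-!
The Boolean dimension drops by at most two if one point of a finite poset is deleted.
-/

namespace Pool.Agent.Results.MP_f4c717_co.AtMostTwo

open Pool.Agent.Q108.BDim

theorem result :
    -- with the definition as written (the size `0` is allowed) the maximum drop is `2`
    IsGreatest {k : ℤ | ∃ (P : Type) (_ : Finite P) (_ : PartialOrder P) (x : P),
      k = (bdim P : ℤ) - bdim {y : P // y ≠ x}} 2 ∧
    -- with sizes at least `1` the maximum drop is `1` or `2`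
    (∃ D : ℤ, (D = 1 ∨ D = 2) ∧
      IsGreatest {k : ℤ | ∃ (P : Type) (_ : Finite P) (_ : PartialOrder P) (x : P),
        k = (bdimPos P : ℤ) - bdimPos {y : P // y ≠ x}} D) ∧
    -- and the drop at `x` is at most `1` if `x` has at most one lower cover or at most one
    -- upper cover or is comparable to all points
    (∀ (P : Type) [Finite P] [PartialOrder P] (x : P),
      ((∀ a b : P, a ⋖ x → b ⋖ x → a = b) ∨ (∀ a b : P, x ⋖ a → x ⋖ b → a = b) ∨
        (∀ y : P, y ≤ x ∨ x ≤ y)) →
      bdimPos P ≤ bdimPos {y : P // y ≠ x} + 1) := by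
  have hup : ∀ k ∈ {k : ℤ | ∃ (P : Type) (_ : Finite P) (_ : PartialOrder P) (x : P),
      k = (bdimPos P : ℤ) - bdimPos {y : P // y ≠ x}}, k ≤ 2 := by
    rintro k ⟨P, _, _, x, rfl⟩
    have := bdimPos_le_add_two x
    omega
  have hone : (1 : ℤ) ∈ {k : ℤ | ∃ (P : Type) (_ : Finite P) (_ : PartialOrder P) (x : P),
      k = (bdimPos P : ℤ) - bdimPos {y : P // y ≠ x}} :=
    ⟨Ex, inferInstance, inferInstance, Sum.inl false, by
      rw [ex_bdimPos, ex_bdimPos_sub]; norm_num⟩
  refine ⟨⟨⟨Ex, inferInstance, inferInstance, Sum.inl false, ?_⟩, ?_⟩, ?_, ?_⟩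
  · rw [ex_bdim, ex_bdim_sub]; norm_num
  · rintro k ⟨P, _, _, x, rfl⟩
    have := bdim_le_add_two x
    omega
  · by_cases h2 : (2 : ℤ) ∈ {k : ℤ | ∃ (P : Type) (_ : Finite P) (_ : PartialOrder P) (x : P),
      k = (bdimPos P : ℤ) - bdimPos {y : P // y ≠ x}}
    · exact ⟨2, Or.inr rfl, h2, hup⟩
    · refine ⟨1, Or.inl rfl, hone, ?_⟩
      intro k hk
      have h3 := hup k hk
      have h4 : k ≠ 2 := fun h => h2 (h ▸ hk)
      omega
  · intro P _ _ x hx
    exact bdimPos_le_add_one x hx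

end Pool.Agent.Results.MP_f4c717_co.AtMostTwo
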